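import Pool.Agent.H14.TOW.TargetsM

/-!
# Places of codimension one and prime divisors
-/

set_option autoImplicit false

open MvPolynomial
open Pool.Agent.H12.ZD (pmap)
open Pool.Agent.H18.HIT Pool.Agent.H18.HX Pool.Agent.H18.VP Pool.Agent.H18.VZ Pool.Agent.H14.TOW

namespace Pool.Agent.H50.TOWP

/-- Coprimality of an irreducible polynomial and a polynomial not divisible by it, over the
fraction field of the coefficients. -/
theorem gauss {D : Type} [CommRing D] [IsDomain D] [UniqueFactorizationMonoid D]
    (h c : Polynomial D) (hh : Irreducible h) (hc : ¬ h ∣ c) :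
    ∃ (a b : Polynomial D) (d : D), d ≠ 0 ∧ a * h + b * c = Polynomial.C d := by
  classical
  let _ : NormalizedGCDMonoid D := Classical.choice inferInstance
  by_cases h0 : h.natDegree = 0
  · obtain ⟨d, hd⟩ := Polynomial.natDegree_eq_zero.1 h0
    refine ⟨1, 0, d, ?_, ?_⟩
    · intro hd0
      apply hh.ne_zero
      rw [← hd, hd0, map_zero]
    · rw [hd]; ring
  · have hp : h.IsPrimitive := hh.isPrimitive h0
    set K := FractionRing D
    have hirr : Irreducible (h.map (algebraMap D K)) :=
      hp.irreducible_iff_irreducible_map_fraction_map.1 hh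
    have hnd : ¬ h.map (algebraMap D K) ∣ c.map (algebraMap D K) := fun hd =>
      hc (hp.dvd_of_fraction_map_dvd_fraction_map hd)
    have hcop : IsCoprime (h.map (algebraMap D K)) (c.map (algebraMap D K)) :=
      (hirr.coprime_iff_not_dvd).2 hnd
    obtain ⟨u, w, huw⟩ := hcop
    obtain ⟨d1, hd1, hu⟩ := IsLocalization.integerNormalization_spec (nonZeroDivisors D) u
    obtain ⟨d2, hd2, hw⟩ := IsLocalization.integerNormalization_spec (nonZeroDivisors D) w
    rw [Algebra.smul_def, Polynomial.algebraMap_apply] at hu hw
    rw [mem_nonZeroDivisors_iff_ne_zero] at hd1 hd2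
    refine ⟨Polynomial.C d2 * IsLocalization.integerNormalization (nonZeroDivisors D) u,
      Polynomial.C d1 * IsLocalization.integerNormalization (nonZeroDivisors D) w, d1 * d2,
      mul_ne_zero hd1 hd2, ?_⟩
    apply Polynomial.map_injective (algebraMap D K) (IsFractionRing.injective _ _)
    rw [Polynomial.map_add, Polynomial.map_mul, Polynomial.map_mul, Polynomial.map_mul,
      Polynomial.map_mul, hu, hw, Polynomial.map_C, Polynomial.map_C, Polynomial.map_C,
      map_mul (algebraMap D K), Polynomial.C_mul]
    linear_combination (Polynomial.C (algebraMap D K d1) * Polynomial.C (algebraMap D K d2)) * huw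

/-- The same in several variables: the variable `X s` is eliminated. -/
theorem elim {n : ℕ} {k : Type} [Field k] (s : Fin (n + 1)) (h c : MvPolynomial (Fin (n + 1)) k)
    (hh : Irreducible h) (hc : ¬ h ∣ c) :
    ∃ (a b : MvPolynomial (Fin (n + 1)) k) (d : MvPolynomial (Fin n) k), d ≠ 0 ∧
      a * h + b * c = rename s.succAbove d := by
  let E : MvPolynomial (Fin (n + 1)) k ≃ₐ[k] Polynomial (MvPolynomial (Fin n) k) :=
    (renameEquiv k (finSuccEquiv' s)).trans (optionEquivLeft k (Fin n))
  have hE : ∀ d : MvPolynomial (Fin n) k, E (rename s.succAbove d) = Polynomial.C d := by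
    intro d
    have : (E : MvPolynomial (Fin (n + 1)) k →ₐ[k] Polynomial (MvPolynomial (Fin n) k)).comp
        (rename s.succAbove) = (Algebra.ofId (MvPolynomial (Fin n) k)
          (Polynomial (MvPolynomial (Fin n) k))).restrictScalars k := by
      apply MvPolynomial.algHom_ext
      intro i
      simp [E, Algebra.ofId_apply]
    exact congrArg (fun f => f d) this
  have hh' : Irreducible (E h) := (MulEquiv.irreducible_iff E.toMulEquiv).2 hh
  have hc' : ¬ E h ∣ E c := by
    intro hd
    apply hc
    have := map_dvd E.symm hd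
    simpa using this
  obtain ⟨a, b, d, hd, hab⟩ := gauss (E h) (E c) hh' hc'
  refine ⟨E.symm a, E.symm b, d, hd, ?_⟩
  apply E.injective
  rw [hE, ← hab]
  simp


/-- All but one of the elements are independent when the rank is large. -/
theorem indep_of_rank {A : Type} [CommRing A] [IsDomain A] {k : Type} [Field k] [Algebra k A]
    {n j : ℕ} (y : Fin (n + 1) → A) {ι : Type} [Fintype ι] (w : ι → A)
    (hw : AlgebraicIndependent k w) (hι : Fintype.card ι = j + 1)
    (halg : ∀ i, IsAlgebraic (Algebra.adjoin k (Set.range y)) (w i)) (hnj : n ≤ j + 1) :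
    ∃ s : Fin (n + 1), AlgebraicIndependent k (fun i : Fin n => y (s.succAbove i)) := by
  classical
  set M := AlgebraicIndependent.matroid k A with hM
  obtain ⟨B, hB⟩ := M.exists_isBasis (Set.range y) (by rw [hM]; simp)
  have h1 : Set.range w ⊆ M.closure (Set.range y) := by
    rw [hM, AlgebraicIndependent.matroid_closure_eq]
    rintro _ ⟨i, rfl⟩
    rw [SetLike.mem_coe, Subalgebra.mem_algebraicClosure]
    exact halg i
  have h2 : M.Indep (Set.range w) := AlgebraicIndependent.matroid_indep_iff.2 hw.to_subtype_range
  have h3 : (Set.range w).encard ≤ B.encard := by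
    rw [hB.encard_eq_eRk, ← M.eRk_closure_eq]
    exact h2.encard_le_eRk_of_subset h1
  have h4 : (Set.range w).encard = (j + 1 : ℕ) := by
    rw [← Set.image_univ, hw.injective.encard_image, Set.encard_univ, ENat.card_eq_coe_fintype_card,
      hι]
  -- choose indices
  have h5 : ∀ b : B, ∃ i, y i = b := fun b => hB.subset b.2
  choose g hg using h5
  have hginj : Function.Injective g := by
    intro b b' h
    apply Subtype.ext
    rw [← hg b, ← hg b', h]
  have h6 : (Set.range g).encard = B.encard := by
    rw [← Set.image_univ, hginj.encard_image, Set.encard_univ]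
    rfl
  have h7 : n ≤ (Set.range g).toFinset.card := by
    have : ((Set.range g).toFinset.card : ℕ∞) = (Set.range g).encard := by
      rw [Set.encard_eq_coe_toFinset_card]
    have h8 : ((n : ℕ) : ℕ∞) ≤ ((Set.range g).toFinset.card : ℕ∞) := by
      rw [this, h6]
      refine le_trans ?_ h3
      rw [h4]
      exact_mod_cast hnj
    exact_mod_cast h8
  have h8 : ∃ s : Fin (n + 1), ∀ i, i ≠ s → i ∈ Set.range g := by
    have hc : ((Set.range g).toFinset)ᶜ.card ≤ 1 := by
      rw [Finset.card_compl, Fintype.card_fin]
      omega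
    rw [Finset.card_le_one_iff_subset_singleton] at hc
    obtain ⟨s, hs⟩ := hc
    refine ⟨s, fun i hi => ?_⟩
    by_contra hn
    have : i ∈ ((Set.range g).toFinset)ᶜ := by simpa using hn
    have := hs this
    exact hi (by simpa using this)
  obtain ⟨s, hs⟩ := h8
  refine ⟨s, ?_⟩
  have h9 : ∀ i : Fin n, ∃ b : B, g b = s.succAbove i := fun i => hs _ (Fin.succAbove_ne s i)
  choose f hf using h9
  have hfinj : Function.Injective f := by
    intro i i' h
    have := hf i
    rw [h, hf i'] at this
    exact (Fin.succAbove_right_injective this).symm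
  have hBind : AlgebraicIndependent k (fun b : B => (b : A)) :=
    AlgebraicIndependent.matroid_indep_iff.1 hB.indep
  have := hBind.comp f hfinj
  have e : (fun i : Fin n => y (s.succAbove i)) = (fun b : B => (b : A)) ∘ f := by
    funext i
    rw [← hf i, hg]
    rfl
  rw [e]
  exact this


/-- An element of a domain which divides an algebraic element with an algebraic quotient. -/
theorem algebraic_div {R A : Type} [CommRing R] [IsDomain R] [CommRing A] [IsDomain A]
    [Algebra R A] [FaithfulSMul R A] {a b c : A} (hb0 : b ≠ 0) (hb : IsAlgebraic R b)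
    (hc : IsAlgebraic R c) (h : a * b = c) : IsAlgebraic R a := by
  apply IsAlgebraic.of_mul (y := b) (mem_nonZeroDivisors_of_ne_zero hb0) hb
  rw [mul_comm, h]
  exact hc

/-- The value of a form. -/
theorem aeval_form {k κ : Type} [Field k] [Field κ] [Algebra k κ] {L : ℕ} (v : Fin L → κ) (m : ℕ)
    (A : MvPolynomial (Fin L) k) (hA : A.IsHomogeneous m) :
    aeval (fun i => Polynomial.C (v i) * Polynomial.X) A =
      Polynomial.C (aeval v A) * (Polynomial.X : Polynomial κ) ^ m := by
  rw [aeval_def, aeval_def, eval₂_eq', eval₂_eq', map_sum, Finset.sum_mul]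
  apply Finset.sum_congr rfl
  intro d hd
  have hdm : ∑ i, d i = m := by
    have := hA (mem_support_iff.1 hd)
    rw [Finsupp.weight_apply, Finsupp.sum_fintype _ _ (by simp)] at this
    simpa using this
  simp_rw [mul_pow]
  rw [Finset.prod_mul_distrib, Finset.prod_pow_eq_pow_sum, hdm, map_mul, map_prod]
  simp_rw [map_pow]
  rw [Polynomial.algebraMap_apply, mul_assoc]

/-- Row PDV. -/
theorem pf_PDV (hP : T_PID) (hN : T_NRM) : T_PDV := by
  intro k κ _ _ _ n r j P v u hH hv1 hPm hu hq hnj hex
  obtain ⟨c₀, hc₀, hPc₀⟩ := hex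
  set y : Fin (n + 1) → Polynomial κ := fun i => Polynomial.C (v i.succ) * Polynomial.X with hy
  have hup : ∀ c : Po (n + 1) k, up c ∈ pid v ↔ aeval y c = 0 := by
    intro c
    unfold pid up
    rw [RingHom.mem_ker]
    have : (aeval (fun i => Polynomial.C (v i) * Polynomial.X) :
        MvPolynomial (Fin (n + 1 + 1)) k →ₐ[k] Polynomial κ) (rename Fin.succ c) = aeval y c := by
      rw [aeval_rename]
      rfl
    exact Eq.congr_left this
  -- a nonzero element
  obtain ⟨g, D', hg0, hgD⟩ := hN (n + 1) r k P c₀ hH hPc₀
  have hg : aeval y g = 0 := by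
    rw [← hup]
    obtain ⟨e, he⟩ := hgD
    have : up g = P * e + c₀ * D' := by rw [← he]; ring
    rw [this]
    exact Ideal.add_mem _ (Ideal.mul_mem_right _ _ hPm) (Ideal.mul_mem_right _ _ hc₀)
  -- independence
  have hy0 : y 0 = Polynomial.X := by
    simp only [hy]
    rw [hv1]
    simp
  have hind : ∃ s : Fin (n + 1), AlgebraicIndependent k (fun i : Fin n => y (s.succAbove i)) := by
    have hw : AlgebraicIndependent k (Sum.elim (fun _ : PUnit.{1} => (Polynomial.X : Polynomial κ))
        (algebraMap κ (Polynomial κ) ∘ u)) :=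
      AlgebraicIndependent.sumElim_comp hu (IsTranscendenceBasis.polynomial PUnit.{1} κ).1
    refine indep_of_rank y _ hw (by simp [add_comm]) ?_ hnj
    set S := Algebra.adjoin k (Set.range y) with hS
    have hyS : ∀ i, y i ∈ S := fun i => Algebra.subset_adjoin ⟨i, rfl⟩
    let φ : Po (n + 1) k →ₐ[k] S := aeval (fun i => (⟨y i, hyS i⟩ : S))
    have key : ∀ p : Po (n + 1 + 1) k,
        Polynomial.eval₂ ((algebraMap S (Polynomial κ)).comp (φ : Po (n + 1) k →+* S))
          (Polynomial.C (v 0) * Polynomial.X) (finSuccEquiv k (n + 1) p) =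
        aeval (fun i => Polynomial.C (v i) * Polynomial.X) p := by
      intro p
      have h : (Polynomial.eval₂RingHom ((algebraMap S (Polynomial κ)).comp
          (φ : Po (n + 1) k →+* S)) (Polynomial.C (v 0) * Polynomial.X)).comp
          ((finSuccEquiv k (n + 1)) : Po (n + 1 + 1) k →+* Polynomial (Po (n + 1) k)) =
          ((aeval (fun i => Polynomial.C (v i) * Polynomial.X) :
            MvPolynomial (Fin (n + 1 + 1)) k →ₐ[k] Polynomial κ) :
            MvPolynomial (Fin (n + 1 + 1)) k →+* Polynomial κ) := by
        apply MvPolynomial.ringHom_ext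
        · intro a
          have e1 : finSuccEquiv k (n + 1) (C a) = Polynomial.C (C a) := by
            rw [finSuccEquiv_apply]; simp
          change Polynomial.eval₂ _ _ (finSuccEquiv k (n + 1) (C a)) = aeval _ (C a)
          rw [e1, Polynomial.eval₂_C, algHom_C]
          change algebraMap S (Polynomial κ) (φ (C a)) = _
          rw [algHom_C]
          rfl
        · intro i
          refine Fin.cases ?_ (fun i => ?_) i
          · change Polynomial.eval₂ _ _ (finSuccEquiv k (n + 1) (X 0)) = aeval _ (X 0)
            rw [finSuccEquiv_X_zero, Polynomial.eval₂_X, aeval_X]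
          · change Polynomial.eval₂ _ _ (finSuccEquiv k (n + 1) (X i.succ)) = aeval _ (X i.succ)
            rw [finSuccEquiv_X_succ, Polynomial.eval₂_C, aeval_X]
            change algebraMap S (Polynomial κ) (φ (X i)) = _
            rw [aeval_X]
            rfl
      exact congrArg (fun f => f p) h
    have hXi : ∀ i, IsIntegral S (Polynomial.C (v i) * Polynomial.X : Polynomial κ) := by
      intro i
      refine Fin.cases ?_ (fun i => ?_) i
      · refine ⟨(finSuccEquiv k (n + 1) P).map (φ : Po (n + 1) k →+* S), hH.mon.map _, ?_⟩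
        rw [Polynomial.eval₂_map, key]
        exact hPm
      · have : (Polynomial.C (v i.succ) * Polynomial.X : Polynomial κ) =
            algebraMap S (Polynomial κ) ⟨y i, hyS i⟩ := rfl
        rw [this]
        exact isIntegral_algebraMap
    have hall : ∀ c : MvPolynomial (Fin (n + 1 + 1)) k,
        IsIntegral S (aeval (fun i => Polynomial.C (v i) * Polynomial.X) c : Polynomial κ) := by
      intro c
      induction c using MvPolynomial.induction_on with
      | C a =>
        rw [algHom_C]
        have : algebraMap k (Polynomial κ) a = algebraMap S (Polynomial κ) (algebraMap k S a) := rfl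
        rw [this]
        exact isIntegral_algebraMap
      | add p q hp hq => rw [map_add]; exact hp.add hq
      | mul_X p i hp => rw [map_mul, aeval_X]; exact hp.mul (hXi i)
    rintro (i | i)
    · have : (Polynomial.X : Polynomial κ) = algebraMap S (Polynomial κ) ⟨y 0, hyS 0⟩ := hy0.symm
      simp only [Sum.elim_inl]
      rw [this]
      exact isAlgebraic_algebraMap _
    · obtain ⟨m, A, B, hA, hB, hB0, hAB⟩ := hq i
      simp only [Sum.elim_inr, Function.comp_apply]
      refine algebraic_div (b := aeval (fun i => Polynomial.C (v i) * Polynomial.X) B)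
        (c := aeval (fun i => Polynomial.C (v i) * Polynomial.X) A) ?_ (hall B).isAlgebraic
        (hall A).isAlgebraic ?_
      · rw [aeval_form v m B hB]
        exact mul_ne_zero (by rwa [Ne, Polynomial.C_eq_zero]) (pow_ne_zero _ Polynomial.X_ne_zero)
      · rw [aeval_form v m B hB, aeval_form v m A hA, ← hAB, Polynomial.C_mul,
          Polynomial.algebraMap_apply, Algebra.algebraMap_self_apply, mul_assoc]
  obtain ⟨s, hs⟩ := hind
  -- the irreducible factor
  have hfac : ∃ h : Po (n + 1) k, Irreducible h ∧ aeval y h = 0 := by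
    obtain ⟨f, hf1, w, hw⟩ := WfDvdMonoid.exists_factors g hg0
    have h0 : aeval y f.prod = 0 := by
      have h1 : aeval y f.prod * aeval y (w : Po (n + 1) k) = 0 := by
        rw [← map_mul, hw, hg]
      rcases mul_eq_zero.1 h1 with h | h
      · exact h
      · exact absurd h ((w.isUnit.map (aeval y)).ne_zero)
    rw [map_multiset_prod, Multiset.prod_eq_zero_iff, Multiset.mem_map] at h0
    obtain ⟨h, hhf, hh0⟩ := h0
    exact ⟨h, hf1 h hhf, hh0⟩
  obtain ⟨h, hirr, hh0⟩ := hfac
  refine ⟨h, (hP k κ _ v).1, hPm, hirr, ?_⟩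
  intro c
  rw [hup]
  constructor
  · intro hc
    by_contra hnd
    obtain ⟨a, b, d, hd, hab⟩ := elim s h c hirr hnd
    apply hd
    have h1 : aeval y (rename s.succAbove d) = 0 := by
      rw [← hab, map_add, map_mul, map_mul, hh0, hc, mul_zero, mul_zero, add_zero]
    rw [aeval_rename] at h1
    exact (hs (by rw [map_zero]; exact h1))
  · rintro ⟨e, rfl⟩
    rw [map_mul, hh0, zero_mul]

end Pool.Agent.H50.TOWP
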